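import Mathlib

open SimpleGraph

namespace Pool.Agent.Results.MP_3ffbec_co.StrongUnbounded

/-! ### Generalities -/

lemma lipschitz {V : Type} {G : SimpleGraph V} (F : V → ℕ)
    (hF : ∀ u v, G.Adj u v → F u ≤ F v + 1) {u v : V} (w : G.Walk u v) : F u ≤ F v + w.length := by
  induction w with
  | nil => simp
  | cons h p ih =>
    have := hF _ _ h
    simp only [Walk.length_cons]
    omega

lemma lipschitz_dist {V : Type} {G : SimpleGraph V} (hG : G.Connected) (F : V → ℕ)
    (hF : ∀ u v, G.Adj u v → F u ≤ F v + 1) (u v : V) : F u ≤ F v + G.dist u v := by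
  obtain ⟨w, hw⟩ := hG.exists_walk_length_eq_dist u v
  rw [← hw]; exact lipschitz F hF w

lemma dist_adj_le {V : Type} {G : SimpleGraph V} (hG : G.Connected) {u v : V} (h : G.Adj u v) (x : V) :
    G.dist u x ≤ G.dist v x + 1 := by
  have h1 := hG.dist_triangle (u := u) (v := v) (w := x)
  have h2 : G.dist u v = 1 := SimpleGraph.dist_eq_one_iff_adj.mpr h
  omega

/-- a walk inside a connected set of nodes -/
lemma walk_in {ι : Type} {T : SimpleGraph ι} (S : Set ι) (hS : (T.induce S).Preconnected) {a b : ι}
    (ha : a ∈ S) (hb : b ∈ S) : ∃ w : T.Walk a b, ∀ p ∈ w.support, p ∈ S := by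
  obtain ⟨w⟩ := hS ⟨a, ha⟩ ⟨b, hb⟩
  refine ⟨w.map (Embedding.induce S).toHom, ?_⟩
  intro p hp
  have : p ∈ (w.map (Embedding.induce S).toHom).support := hp
  rw [Walk.support_map, List.mem_map] at this
  obtain ⟨q, _, rfl⟩ := this
  exact q.2

/-- in a tree: if `q` is the first step of a geodesic from `p` to `s`, and `s`, `t` are joined by a walk
avoiding `p`, then `q` is closer to `t` as well. -/
lemma closer {ι : Type} {T : SimpleGraph ι} (hT : T.IsTree) {p q s t : ι} (hpq : T.Adj p q)
    (hs : T.dist q s + 1 = T.dist p s) (w : T.Walk s t) (hw : p ∉ w.support) :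
    T.dist q t + 1 = T.dist p t := by
  classical
  have hconn := hT.connected
  -- a geodesic walk from a vertex strictly closer to the target than `p` avoids `p`
  have avoid : ∀ a b : ι, T.dist a b + 1 = T.dist p b → ∀ g : T.Walk a b, g.length = T.dist a b →
      p ∉ g.support := by
    intro a b hab g hg hp
    have h1 := dist_le (g.dropUntil p hp)
    have h2 := g.take_spec hp
    have h3 : (g.takeUntil p hp).length + (g.dropUntil p hp).length = g.length := by
      conv_rhs => rw [← h2]
      rw [Walk.length_append]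
    omega
  have htp : p ≠ t := by
    rintro rfl
    exact hw w.end_mem_support
  have hpt : T.dist p t ≠ 0 := by
    intro h
    exact htp (hconn.dist_eq_zero_iff.mp h)
  -- first step of a geodesic from p to t
  obtain ⟨g, hg⟩ := hconn.exists_walk_length_eq_dist p t
  cases g with
  | nil => exact absurd rfl htp
  | @cons _ q' _ hpq' g' =>
    simp only [Walk.length_cons] at hg
    have hq'1 : T.dist q' t ≤ g'.length := dist_le g'
    have hq'2 := dist_adj_le hconn hpq' t
    have hq' : T.dist q' t + 1 = T.dist p t := by omega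
    have hg' : g'.length = T.dist q' t := by omega
    by_cases hqq : q = q'
    · rw [hqq]; exact hq'
    exfalso
    -- walk from q to p avoiding the edge pq
    obtain ⟨g1, hg1⟩ := hconn.exists_walk_length_eq_dist q s
    have ha1 := avoid q s hs g1 hg1
    have ha2 := avoid q' t hq' g' hg'
    let W : T.Walk q q' := (g1.append w).append g'.reverse
    have hW : p ∉ W.support := by
      simp only [W, Walk.mem_support_append_iff, Walk.support_reverse, List.mem_reverse, not_or]
      exact ⟨⟨ha1, hw⟩, ha2⟩
    have hbr : T.IsBridge s(p, q) := by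
      have := (SimpleGraph.isAcyclic_iff_forall_isBridge.mp hT.isAcyclic)
      exact this hpq
    have h5 := (SimpleGraph.isBridge_iff_forall_walk_mem_edges.mp hbr)
      ((W.append (Walk.cons hpq'.symm Walk.nil)).reverse)
    rw [Walk.edges_reverse, List.mem_reverse, Walk.edges_append, List.mem_append] at h5
    rcases h5 with h5 | h5
    · exact hW (Walk.fst_mem_support_of_mem_edges _ h5)
    · simp only [Walk.edges_cons, Walk.edges_nil, List.mem_singleton] at h5
      rw [Sym2.eq_iff] at h5
      rcases h5 with ⟨h5, _⟩ | ⟨_, h5⟩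
      · exact hpq'.ne h5
      · exact hqq h5

/-- A balanced node for five marked nodes of a tree. -/
lemma balanced {ι : Type} {T : SimpleGraph ι} (hT : T.IsTree) (t : Fin 5 → ι) :
    ∃ p : ι, ∀ I : Finset (Fin 5), 3 ≤ I.card →
      ∃ i ∈ I, ∃ k ∈ I, i ≠ k ∧ ∀ w : T.Walk (t i) (t k), p ∈ w.support := by
  classical
  have hconn := hT.connected
  -- minimise the sum of distances
  obtain ⟨p, hp⟩ : ∃ p : ι, ∀ q : ι, ∑ i, T.dist p (t i) ≤ ∑ i, T.dist q (t i) := by
    have hne : Nonempty ι := ⟨t 0⟩
    obtain ⟨p, hp⟩ : ∃ p : ι, (∑ i, T.dist p (t i)) = sInf (Set.range fun q => ∑ i, T.dist q (t i)) :=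
      Nat.sInf_mem (Set.range_nonempty (fun q => ∑ i, T.dist q (t i)))
    exact ⟨p, fun q => by rw [hp]; exact Nat.sInf_le ⟨q, rfl⟩⟩
  refine ⟨p, fun I hI => ?_⟩
  by_contra hcon
  push Not at hcon
  -- I has at least two elements
  obtain ⟨i0, hi0⟩ : I.Nonempty := Finset.card_pos.mp (by omega)
  obtain ⟨i1, hi1, h01⟩ : ∃ i1 ∈ I, i0 ≠ i1 := by
    have : 1 < I.card := by omega
    obtain ⟨b, hb, hne⟩ := Finset.exists_mem_ne this i0
    exact ⟨b, hb, hne.symm⟩
  have hpt : p ≠ t i0 := by
    obtain ⟨w, hw⟩ := hcon i0 hi0 i1 hi1 h01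
    rintro rfl
    exact hw w.start_mem_support
  obtain ⟨g, hg⟩ := hconn.exists_walk_length_eq_dist p (t i0)
  cases g with
  | nil => exact hpt rfl
  | @cons _ q _ hpq g' =>
    simp only [Walk.length_cons] at hg
    have hq1 : T.dist q (t i0) ≤ g'.length := dist_le g'
    have hq2 := dist_adj_le hconn hpq (t i0)
    have hq : T.dist q (t i0) + 1 = T.dist p (t i0) := by omega
    have hcl : ∀ i ∈ I, T.dist q (t i) + 1 = T.dist p (t i) := by
      intro i hi
      by_cases h : i0 = i
      · rw [← h]; exact hq
      · obtain ⟨w, hw⟩ := hcon i0 hi0 i hi h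
        exact closer hT hpq hq w hw
    have hle : ∀ i, T.dist q (t i) ≤ T.dist p (t i) + 1 := fun i => dist_adj_le hconn hpq.symm (t i)
    have h1 : ∑ i ∈ I, T.dist q (t i) + I.card = ∑ i ∈ I, T.dist p (t i) := by
      rw [← Finset.sum_congr rfl hcl, Finset.sum_add_distrib]; simp
    have h2 : ∑ i ∈ Iᶜ, T.dist q (t i) ≤ ∑ i ∈ Iᶜ, T.dist p (t i) + Iᶜ.card := by
      calc ∑ i ∈ Iᶜ, T.dist q (t i) ≤ ∑ i ∈ Iᶜ, (T.dist p (t i) + 1) := Finset.sum_le_sum fun i _ => hle i
        _ = _ := by rw [Finset.sum_add_distrib]; simp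
    have h3 : I.card + Iᶜ.card = 5 := by
      rw [Finset.card_add_card_compl]; simp
    have h4 := hp q
    rw [← Finset.sum_add_sum_compl I, ← Finset.sum_add_sum_compl I (fun i => T.dist q (t i))] at h4
    omega

/-- Parent pointers define a tree. -/
lemma parentTree {V : Type} (root : V) (par : V → V) (dep : V → ℕ)
    (h : ∀ u, u ≠ root → dep (par u) < dep u) (hr : par root = root) :
    (SimpleGraph.fromRel (fun u v => par u = v)).IsTree := by
  classical
  set T := SimpleGraph.fromRel (fun u v => par u = v) with hTdef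
  have hadj : ∀ u, u ≠ root → T.Adj u (par u) := by
    intro u hu
    rw [hTdef, SimpleGraph.fromRel_adj]
    refine ⟨?_, Or.inl rfl⟩
    intro h1
    have := h u hu
    rw [← h1] at this
    exact lt_irrefl _ this
  have hreach : ∀ n u, dep u ≤ n → T.Reachable u root := by
    intro n
    induction n with
    | zero =>
      intro u hu
      by_cases h1 : u = root
      · rw [h1]
      · have := h u h1; omega
    | succ n ih =>
      intro u hu
      by_cases h1 : u = root
      · rw [h1]
      · exact (hadj u h1).reachable.trans (ih (par u) (by have := h u h1; omega))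
  have hconn : T.Connected := (SimpleGraph.connected_iff_exists_forall_reachable _).mpr
    ⟨root, fun u => (hreach _ u le_rfl).symm⟩
  refine IsTree.mk hconn ?_
  intro v c hc
  -- maximal depth vertex in the support
  obtain ⟨m, hm, hmax⟩ := Finset.exists_max_image c.support.toFinset dep
    ⟨v, by simp [c.start_mem_support]⟩
  have hm' : m ∈ c.support := by simpa using hm
  have hc' := hc.rotate hm'
  have hnil : ¬ (c.rotate m hm').Nil := hc'.not_nil
  have key : ∀ x, T.Adj m x → x ∈ c.support → x = par m := by
    intro x hx hxs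
    rw [hTdef, SimpleGraph.fromRel_adj] at hx
    rcases hx with ⟨hne, hx | hx⟩
    · exact hx.symm
    · exfalso
      by_cases h1 : x = root
      · rw [h1, hr] at hx; rw [h1] at hne; exact hne hx.symm
      · have h2 := h x h1
        have h3 := hmax x (by simpa using hxs)
        rw [hx] at h2; omega
  have hsup : ∀ x, x ∈ (c.rotate m hm').support → x ∈ c.support := by
    intro x hx
    have := (c.support_rotate m hm')
    by_cases h1 : x = m
    · rw [h1]; exact hm'
    · rw [← Walk.cons_tail_support, List.mem_cons] at hx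
      rcases hx with hx | hx
      · exact absurd hx h1
      · exact List.mem_of_mem_tail (this.mem_iff.mp hx)
  have e1 := key _ (Walk.adj_snd hnil) (hsup _ (Walk.getVert_mem_support _ _))
  have e2 := key _ (Walk.adj_penultimate hnil).symm (hsup _ (Walk.getVert_mem_support _ _))
  exact hc'.snd_ne_penultimate (e1.trans e2.symm)


/-! ### The graph -/

/-- Labels of vertices: `t l` tree vertices, `x l i k` connectors between the siblings `i::l`, `k::l`,
`h l i k s n` the `n`-th vertex of the pendant path number `s` at the connector `x l i k`. -/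
inductive Vx
  | t (l : List (Fin 5))
  | x (l : List (Fin 5)) (i k : Fin 5)
  | h (l : List (Fin 5)) (i k : Fin 5) (s : Bool) (n : ℕ)

def good (R : ℕ) : Vx → Prop
  | .t l => l.length ≤ R + 1
  | .x l i k => l.length < R + 1 ∧ i < k
  | .h l i k _ n => l.length < R + 1 ∧ i < k ∧ n < R

abbrev VV (R : ℕ) := {v : Vx // good R v}

inductive E : Vx → Vx → Prop
  | tt (l i) : E (.t (i :: l)) (.t l)
  | xi (l i k) : E (.x l i k) (.t (i :: l))
  | xk (l i k) : E (.x l i k) (.t (k :: l))
  | h0 (l i k s) : E (.h l i k s 0) (.x l i k)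
  | hs (l i k s n) : E (.h l i k s (n + 1)) (.h l i k s n)

lemma E_irrefl (v : Vx) : ¬ E v v := by
  intro h
  generalize hw : v = w at h
  have h2 : E v w := by rw [hw] at *; exact h
  cases h2 with
  | tt l i => simp at hw
  | xi l i k => simp at hw
  | xk l i k => simp at hw
  | h0 l i k s => simp at hw
  | hs l i k s n => simp at hw

def GG (R : ℕ) : SimpleGraph (VV R) where
  Adj u v := E u.1 v.1 ∨ E v.1 u.1
  symm := ⟨fun _ _ h => h.symm⟩
  loopless := ⟨fun v h => h.elim (E_irrefl v.1) (E_irrefl v.1)⟩

def tv (R : ℕ) (l : List (Fin 5)) (h : l.length ≤ R + 1) : VV R := ⟨.t l, h⟩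
def xv (R : ℕ) (l : List (Fin 5)) (i k : Fin 5) (h : l.length < R + 1) (hik : i < k) : VV R :=
  ⟨.x l i k, h, hik⟩
def hv (R : ℕ) (l : List (Fin 5)) (i k : Fin 5) (s : Bool) (n : ℕ) (h : l.length < R + 1)
    (hik : i < k) (hn : n < R) : VV R := ⟨.h l i k s n, h, hik, hn⟩

lemma finite_VV (R : ℕ) : Finite (VV R) := by
  have hfin : {v : Vx | good R v}.Finite := by
    have hS := List.finite_length_le (Fin 5) (R + 1)
    refine (((hS.image Vx.t).union ((hS.prod (Set.finite_univ (α := Fin 5 × Fin 5))).image
      (fun p : List (Fin 5) × (Fin 5 × Fin 5) => Vx.x p.1 p.2.1 p.2.2))).union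
      ((hS.prod ((Set.finite_univ (α := Fin 5 × Fin 5 × Bool)).prod (Set.finite_Iio R))).image
      (fun p : List (Fin 5) × ((Fin 5 × Fin 5 × Bool) × ℕ) =>
        Vx.h p.1 p.2.1.1 p.2.1.2.1 p.2.1.2.2 p.2.2))).subset ?_
    intro v hv
    cases v with
    | t l => exact Or.inl (Or.inl ⟨l, hv, rfl⟩)
    | x l i k => exact Or.inl (Or.inr ⟨(l, (i, k)), ⟨Nat.le_of_lt hv.1, trivial⟩, rfl⟩)
    | h l i k s n =>
      exact Or.inr ⟨(l, ((i, k, s), n)), ⟨Nat.le_of_lt hv.1, trivial, hv.2.2⟩, rfl⟩
  exact hfin.to_subtype

lemma reach_t (R : ℕ) (l : List (Fin 5)) (h : l.length ≤ R + 1) :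
    (GG R).Reachable (tv R l h) (tv R [] (Nat.zero_le _)) := by
  induction l with
  | nil => exact Reachable.refl _
  | cons i l ih =>
    have h' : l.length ≤ R + 1 := by simp only [List.length_cons] at h; omega
    have : (GG R).Adj (tv R (i :: l) h) (tv R l h') := Or.inl (E.tt l i)
    exact this.reachable.trans (ih h')

lemma reach_x (R : ℕ) (l : List (Fin 5)) (i k : Fin 5) (h : l.length < R + 1) (hik : i < k) :
    (GG R).Reachable (xv R l i k h hik) (tv R [] (Nat.zero_le _)) := by
  have : (GG R).Adj (xv R l i k h hik) (tv R (i :: l) h) := Or.inl (E.xi l i k)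
  exact this.reachable.trans (reach_t R (i :: l) h)

lemma reach_h (R : ℕ) (l : List (Fin 5)) (i k : Fin 5) (s : Bool) (n : ℕ) (h : l.length < R + 1)
    (hik : i < k) (hn : n < R) :
    (GG R).Reachable (hv R l i k s n h hik hn) (tv R [] (Nat.zero_le _)) := by
  induction n with
  | zero =>
    have : (GG R).Adj (hv R l i k s 0 h hik hn) (xv R l i k h hik) := Or.inl (E.h0 l i k s)
    exact this.reachable.trans (reach_x R l i k h hik)
  | succ n ih =>
    have : (GG R).Adj (hv R l i k s (n + 1) h hik hn) (hv R l i k s n h hik (by omega)) :=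
      Or.inl (E.hs l i k s n)
    exact this.reachable.trans (ih (by omega))

lemma conn_GG (R : ℕ) : (GG R).Connected := by
  refine (SimpleGraph.connected_iff_exists_forall_reachable _).mpr ⟨tv R [] (Nat.zero_le _), ?_⟩
  rintro ⟨v, hv'⟩
  cases v with
  | t l => exact (reach_t R l hv').symm
  | x l i k => exact (reach_x R l i k hv'.1 hv'.2).symm
  | h l i k s n => exact (reach_h R l i k s n hv'.1 hv'.2.1 hv'.2.2).symm

/-! ### Parity -/

def col : Vx → ℕ
  | .t l => l.length
  | .x l _ _ => l.length
  | .h l _ _ _ n => l.length + n + 1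

lemma col_E {u v : Vx} (h : E u v) : (col u + col v) % 2 = 1 := by
  cases h <;> simp only [col, List.length_cons] <;> omega

lemma walk_parity {R : ℕ} {u v : VV R} (w : (GG R).Walk u v) :
    (w.length + col u.1 + col v.1) % 2 = 0 := by
  induction w with
  | nil => simp only [Walk.length_nil]; omega
  | cons h p ih =>
    simp only [Walk.length_cons]
    rcases h with h | h
    · have := col_E h; omega
    · have := col_E h; omega

lemma dist_parity {R : ℕ} (u v : VV R) : ((GG R).dist u v + col u.1 + col v.1) % 2 = 0 := by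
  obtain ⟨w, hw⟩ := (conn_GG R).exists_walk_length_eq_dist u v
  rw [← hw]; exact walk_parity w

/-! ### Branches -/

def br (l : List (Fin 5)) : List (Fin 5) → Finset (Fin 5)
  | [] => ∅
  | (j :: w) => if w = l then {j} else br l w

lemma br_short (l : List (Fin 5)) : ∀ w : List (Fin 5), w.length ≤ l.length → br l w = ∅ := by
  intro w
  induction w with
  | nil => intro _; rfl
  | cons j w ih =>
    intro h
    simp only [List.length_cons] at h
    have h1 : w ≠ l := by rintro rfl; omega
    simp only [br, h1, if_false]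
    exact ih (by omega)

lemma br_self (l : List (Fin 5)) : br l l = ∅ := br_short l l le_rfl

lemma br_cons_self (l : List (Fin 5)) (j : Fin 5) : br l (j :: l) = {j} := by simp [br]

lemma br_cons_ne (l w : List (Fin 5)) (j : Fin 5) (h : w ≠ l) : br l (j :: w) = br l w := by
  simp [br, h]

lemma br_card (l : List (Fin 5)) : ∀ w, (br l w).card ≤ 1 := by
  intro w
  induction w with
  | nil => simp [br]
  | cons j w ih =>
    by_cases h : w = l
    · rw [h, br_cons_self]; simp
    · rw [br_cons_ne l w j h]; exact ih

def AA (l : List (Fin 5)) : Vx → Finset (Fin 5)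
  | .t w => br l w
  | .x w i k => if w = l then {i, k} else br l w
  | .h w i k _ _ => if w = l then {i, k} else br l w

lemma AA_card (l : List (Fin 5)) (v : Vx) : (AA l v).card ≤ 2 := by
  cases v with
  | t w => exact (br_card l w).trans (by norm_num)
  | x w i k =>
    simp only [AA]
    split_ifs
    · exact Finset.card_le_two
    · exact (br_card l w).trans (by norm_num)
  | h w i k s n =>
    simp only [AA]
    split_ifs
    · exact Finset.card_le_two
    · exact (br_card l w).trans (by norm_num)

/-- The key distance estimate. -/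
lemma core (R : ℕ) (l : List (Fin 5)) (hl : l.length < R + 1) (i k : Fin 5) (hik : i < k) (c : VV R)
    (hi : i ∉ AA l c.1) (hk : k ∉ AA l c.1) :
    (GG R).dist c (tv R l hl.le) + 2 ≤ (GG R).dist c (xv R l i k hl hik) := by
  classical
  have hG := conn_GG R
  set Z := tv R l hl.le with hZ
  set X := xv R l i k hl hik with hX
  let P : VV R → Prop := fun u => i ∈ AA l u.1 ∨ k ∈ AA l u.1
  let F : VV R → ℕ := fun u => if P u then (GG R).dist u X else (GG R).dist u Z + 2
  have same : ∀ u v : VV R, E u.1 v.1 → (P u ↔ P v) → F u ≤ F v + 1 ∧ F v ≤ F u + 1 := by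
    intro u v h hP
    have hadj : (GG R).Adj u v := Or.inl h
    have a1 := dist_adj_le hG hadj X
    have a2 := dist_adj_le hG hadj.symm X
    have a3 := dist_adj_le hG hadj Z
    have a4 := dist_adj_le hG hadj.symm Z
    by_cases hv : P v
    · have hu := hP.mpr hv
      simp only [F, hv, hu, if_true]
      exact ⟨a1, a2⟩
    · have hu : ¬ P u := fun h => hv (hP.mp h)
      simp only [F, hv, hu, if_false]
      omega
  have hE : ∀ u v : VV R, E u.1 v.1 → F u ≤ F v + 1 ∧ F v ≤ F u + 1 := by
    rintro ⟨u, hu⟩ ⟨v, hv⟩ h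
    cases h with
    | tt w j =>
      by_cases hw : w = l
      · subst hw
        by_cases hP : i = j ∨ k = j
        · have e1 : P ⟨.t (j :: w), hu⟩ := by
            simp only [P, AA, br_cons_self, Finset.mem_singleton]; exact hP
          have e2 : ¬ P ⟨.t w, hv⟩ := by
            simp [P, AA, br_self]
          have e3 : (GG R).dist ⟨.t (j :: w), hu⟩ X = 1 := by
            rw [SimpleGraph.dist_eq_one_iff_adj]
            right
            rcases hP with rfl | rfl
            · exact E.xi _ _ _
            · exact E.xk _ _ _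
          have e4 : (GG R).dist ⟨.t w, hv⟩ Z = 0 := SimpleGraph.dist_self
          simp only [F, e1, e2, if_true, if_false, e3, e4]
          omega
        · apply same _ _ (E.tt w j)
          simp only [P, AA, br_cons_self, br_self, Finset.mem_singleton]
          simp only [hP, false_iff]
          simp
      · apply same _ _ (E.tt w j)
        simp only [P, AA, br_cons_ne l w j hw]
    | xi w a b =>
      by_cases hw : w = l
      · subst hw
        by_cases hv' : i = a ∨ k = a
        · apply same _ _ (E.xi w a b)
          simp only [P, AA, br_cons_self, if_true, Finset.mem_singleton, Finset.mem_insert]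
          tauto
        · by_cases hu' : i = b ∨ k = b
          · have e1 : P ⟨.x w a b, hu⟩ := by
              simp only [P, AA, if_true, Finset.mem_singleton, Finset.mem_insert]; tauto
            have e2 : ¬ P ⟨.t (a :: w), hv⟩ := by
              simp only [P, AA, br_cons_self, Finset.mem_singleton]; exact hv'
            have hab : (w.length < R + 1) ∧ a < b := hu
            have e3 : (GG R).dist ⟨.t (a :: w), hv⟩ Z = 1 := by
              rw [SimpleGraph.dist_eq_one_iff_adj]
              left; exact E.tt w a
            have e4 : (GG R).dist ⟨.x w a b, hu⟩ X ≤ 2 := by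
              have hb : (GG R).Adj ⟨.x w a b, hu⟩ (tv R (b :: w) hl) := Or.inl (E.xk w a b)
              have hb2 : (GG R).dist (tv R (b :: w) hl) X = 1 := by
                rw [SimpleGraph.dist_eq_one_iff_adj]
                right
                rcases hu' with rfl | rfl
                · exact E.xi _ _ _
                · exact E.xk _ _ _
              have := dist_adj_le hG hb X
              omega
            have e5 : (GG R).dist ⟨.x w a b, hu⟩ X ≠ 0 := by
              intro h
              rw [hG.dist_eq_zero_iff] at h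
              have h' := congrArg Subtype.val h
              simp only [hX, xv, Vx.x.injEq] at h'
              exact hv' (Or.inl h'.2.1.symm)
            have e6 : (GG R).dist ⟨.x w a b, hu⟩ X ≠ 1 := by
              intro h
              rw [SimpleGraph.dist_eq_one_iff_adj] at h
              rcases h with h | h <;> cases h
            simp only [F, e1, e2, if_true, if_false, e3]
            omega
          · apply same _ _ (E.xi w a b)
            simp only [P, AA, br_cons_self, if_true, Finset.mem_singleton, Finset.mem_insert]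
            tauto
      · apply same _ _ (E.xi w a b)
        simp only [P, AA, br_cons_ne l w a hw, hw, if_false]
    | xk w a b =>
      by_cases hw : w = l
      · subst hw
        by_cases hv' : i = b ∨ k = b
        · apply same _ _ (E.xk w a b)
          simp only [P, AA, br_cons_self, if_true, Finset.mem_singleton, Finset.mem_insert]
          tauto
        · by_cases hu' : i = a ∨ k = a
          · have e1 : P ⟨.x w a b, hu⟩ := by
              simp only [P, AA, if_true, Finset.mem_singleton, Finset.mem_insert]; tauto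
            have e2 : ¬ P ⟨.t (b :: w), hv⟩ := by
              simp only [P, AA, br_cons_self, Finset.mem_singleton]; exact hv'
            have e3 : (GG R).dist ⟨.t (b :: w), hv⟩ Z = 1 := by
              rw [SimpleGraph.dist_eq_one_iff_adj]
              left; exact E.tt w b
            have e4 : (GG R).dist ⟨.x w a b, hu⟩ X ≤ 2 := by
              have hb : (GG R).Adj ⟨.x w a b, hu⟩ (tv R (a :: w) hl) := Or.inl (E.xi w a b)
              have hb2 : (GG R).dist (tv R (a :: w) hl) X = 1 := by
                rw [SimpleGraph.dist_eq_one_iff_adj]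
                right
                rcases hu' with rfl | rfl
                · exact E.xi _ _ _
                · exact E.xk _ _ _
              have := dist_adj_le hG hb X
              omega
            have e5 : (GG R).dist ⟨.x w a b, hu⟩ X ≠ 0 := by
              intro h
              rw [hG.dist_eq_zero_iff] at h
              have h' := congrArg Subtype.val h
              simp only [hX, xv, Vx.x.injEq] at h'
              exact hv' (Or.inr h'.2.2.symm)
            have e6 : (GG R).dist ⟨.x w a b, hu⟩ X ≠ 1 := by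
              intro h
              rw [SimpleGraph.dist_eq_one_iff_adj] at h
              rcases h with h | h <;> cases h
            simp only [F, e1, e2, if_true, if_false, e3]
            omega
          · apply same _ _ (E.xk w a b)
            simp only [P, AA, br_cons_self, if_true, Finset.mem_singleton, Finset.mem_insert]
            tauto
      · apply same _ _ (E.xk w a b)
        simp only [P, AA, br_cons_ne l w b hw, hw, if_false]
    | h0 w a b s =>
      apply same _ _ (E.h0 w a b s)
      simp only [P, AA]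
    | hs w a b s n =>
      apply same _ _ (E.hs w a b s n)
      simp only [P, AA]
  have hLip : ∀ u v, (GG R).Adj u v → F u ≤ F v + 1 := by
    intro u v h
    rcases h with h | h
    · exact (hE u v h).1
    · exact (hE v u h).2
  have hfin := lipschitz_dist hG F hLip c X
  have hc : ¬ P c := by simp only [P, not_or]; exact ⟨hi, hk⟩
  have hXP : P X := by
    left
    simp only [hX, xv, AA, if_true, Finset.mem_insert, true_or]
  simp only [F, hc, hXP, if_true, if_false, SimpleGraph.dist_self] at hfin
  omega

/-! ### Hairs -/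

def onhair (l : List (Fin 5)) (i k : Fin 5) (s : Bool) : Vx → Prop
  | .h l' i' k' s' _ => l' = l ∧ i' = i ∧ k' = k ∧ s' = s
  | _ => False

def ht : Vx → ℕ
  | .h _ _ _ _ n => n
  | _ => 0

lemma hair_lower (R : ℕ) (l : List (Fin 5)) (hl : l.length < R + 1) (i k : Fin 5) (hik : i < k)
    (s : Bool) (n : ℕ) (hn : n < R) (c : VV R) (hc : ¬ onhair l i k s c.1) :
    (GG R).dist c (xv R l i k hl hik) + (n + 1) ≤ (GG R).dist c (hv R l i k s n hl hik hn) := by
  classical
  have hG := conn_GG R
  set X := xv R l i k hl hik with hX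
  let F : VV R → ℕ := fun u => if onhair l i k s u.1 then (ht u.1 - n) + (n - ht u.1)
    else (GG R).dist u X + (n + 1)
  have same : ∀ u v : VV R, E u.1 v.1 → ¬ onhair l i k s u.1 → ¬ onhair l i k s v.1 →
      F u ≤ F v + 1 ∧ F v ≤ F u + 1 := by
    intro u v h hu hv
    have hadj : (GG R).Adj u v := Or.inl h
    have a1 := dist_adj_le hG hadj X
    have a2 := dist_adj_le hG hadj.symm X
    simp only [F, hu, hv, if_false]
    omega
  have hE : ∀ u v : VV R, E u.1 v.1 → F u ≤ F v + 1 ∧ F v ≤ F u + 1 := by
    rintro ⟨u, hu⟩ ⟨v, hv⟩ h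
    cases h with
    | tt w j => exact same _ _ (E.tt w j) (fun h => h) (fun h => h)
    | xi w a b => exact same _ _ (E.xi w a b) (fun h => h) (fun h => h)
    | xk w a b => exact same _ _ (E.xk w a b) (fun h => h) (fun h => h)
    | h0 w a b s' =>
      by_cases hh : w = l ∧ a = i ∧ b = k ∧ s' = s
      · obtain ⟨rfl, rfl, rfl, rfl⟩ := hh
        have e1 : onhair w a b s' (Vx.h w a b s' 0) := ⟨rfl, rfl, rfl, rfl⟩
        have e2 : ¬ onhair w a b s' (Vx.x w a b) := fun h => h
        have e3 : (GG R).dist ⟨.x w a b, hv⟩ X = 0 := SimpleGraph.dist_self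
        simp only [F, e1, e2, if_true, if_false, e3, ht]
        omega
      · exact same _ _ (E.h0 w a b s') hh (fun h => h)
    | hs w a b s' m =>
      by_cases hh : w = l ∧ a = i ∧ b = k ∧ s' = s
      · have e1 : onhair l i k s (Vx.h w a b s' (m + 1)) := hh
        have e2 : onhair l i k s (Vx.h w a b s' m) := hh
        simp only [F, e1, e2, if_true, ht]
        omega
      · exact same _ _ (E.hs w a b s' m) hh hh
  have hLip : ∀ u v, (GG R).Adj u v → F u ≤ F v + 1 := by
    intro u v h
    rcases h with h | h
    · exact (hE u v h).1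
    · exact (hE v u h).2
  have hfin := lipschitz_dist hG F hLip c (hv R l i k s n hl hik hn)
  have e1 : onhair l i k s (Vx.h l i k s n) := ⟨rfl, rfl, rfl, rfl⟩
  simp only [F, hc, if_false, hv] at hfin
  simp only [e1, if_true, ht] at hfin
  simp only [hv]
  omega

lemma hair_upper (R : ℕ) (l : List (Fin 5)) (hl : l.length < R + 1) (i k : Fin 5) (hik : i < k)
    (s : Bool) (n : ℕ) (hn : n < R) (c : VV R) :
    (GG R).dist c (hv R l i k s n hl hik hn) ≤ (GG R).dist c (xv R l i k hl hik) + (n + 1) := by
  have hG := conn_GG R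
  induction n with
  | zero =>
    have hadj : (GG R).Adj (hv R l i k s 0 hl hik hn) (xv R l i k hl hik) := Or.inl (E.h0 l i k s)
    have := dist_adj_le hG hadj c
    rw [SimpleGraph.dist_comm, SimpleGraph.dist_comm (u := xv R l i k hl hik)] at this
    omega
  | succ n ih =>
    have hadj : (GG R).Adj (hv R l i k s (n + 1) hl hik hn) (hv R l i k s n hl hik (by omega)) :=
      Or.inl (E.hs l i k s n)
    have := dist_adj_le hG hadj c
    rw [SimpleGraph.dist_comm, SimpleGraph.dist_comm (u := hv R l i k s n hl hik (by omega))] at this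
    have := ih (by omega)
    omega


/-! ### Tree-decompositions, tree-breadth, strong tree-breadth -/

/-- `disk G r v` is the disk of radius `r` around `v`. -/
def disk {V : Type} (G : SimpleGraph V) (r : ℕ) (v : V) : Set V := {u | G.edist v u ≤ r}

/-- A tree-decomposition of `G`: a finite tree `T` with a bag for every node. -/
structure TreeDec {V : Type} (G : SimpleGraph V) where
  ι : Type
  fin : Finite ι
  T : SimpleGraph ι
  tree : T.IsTree
  bag : ι → Set V
  vert : ∀ v, ∃ p, v ∈ bag p
  edge : ∀ u v, G.Adj u v → ∃ p, u ∈ bag p ∧ v ∈ bag p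
  conn : ∀ v, (T.induce {p | v ∈ bag p}).Preconnected

/-- `G` has a tree-decomposition of breadth at most `r`. -/
def HasBreadth {V : Type} (G : SimpleGraph V) (r : ℕ) : Prop :=
  ∃ D : TreeDec G, ∀ p, ∃ v, D.bag p ⊆ disk G r v

/-- `G` has a tree-decomposition all of whose bags are disks of radius `r` centred in the bag. -/
def HasStrong {V : Type} (G : SimpleGraph V) (r : ℕ) : Prop :=
  ∃ D : TreeDec G, ∀ p, ∃ v ∈ D.bag p, D.bag p = disk G r v

/-- tree-breadth -/
noncomputable def tb {V : Type} (G : SimpleGraph V) : ℕ := sInf {r | HasBreadth G r}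

/-- strong tree-breadth -/
noncomputable def stb {V : Type} (G : SimpleGraph V) : ℕ := sInf {r | HasStrong G r}

lemma mem_disk {V : Type} {G : SimpleGraph V} (hG : G.Connected) (r : ℕ) (v u : V) :
    u ∈ disk G r v ↔ G.dist v u ≤ r := by
  change G.edist v u ≤ r ↔ _
  rw [← (hG.preconnected v u).coe_dist_eq_edist]
  exact Nat.cast_le

/-! ### No strong decomposition of small radius -/

theorem no_strong (R r : ℕ) (hr : r ≤ R) : ¬ HasStrong (GG R) r := by
  classical
  rintro ⟨D, hD⟩
  have hG := conn_GG R
  choose c hcm hc using hD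
  have mem : ∀ p v, v ∈ D.bag p ↔ (GG R).dist (c p) v ≤ r := by
    intro p v; rw [hc p]; exact mem_disk hG r (c p) v
  obtain ⟨p00, _⟩ := D.vert (tv R [] (Nat.zero_le _))
  have hne : Nonempty D.ι := ⟨p00⟩
  let e : VV R → ℕ := fun v => sInf (Set.range fun p => (GG R).dist (c p) v)
  have hEle : ∀ p v, e v ≤ (GG R).dist (c p) v := fun p v => Nat.sInf_le ⟨p, rfl⟩
  have hEatt : ∀ v, ∃ p, (GG R).dist (c p) v = e v := fun v =>
    Nat.sInf_mem (Set.range_nonempty (fun p => (GG R).dist (c p) v))
  have her : ∀ v, e v ≤ r := by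
    intro v
    obtain ⟨p, hp⟩ := D.vert v
    exact (hEle p v).trans ((mem p v).mp hp)
  -- a tree vertex none of whose children is farther from the centres
  obtain ⟨l, hl, hgood⟩ : ∃ (l : List (Fin 5)) (hl : l.length < R + 1),
      ∀ i : Fin 5, e (tv R (i :: l) hl) ≤ e (tv R l hl.le) := by
    by_contra hcon
    push Not at hcon
    have chain : ∀ n, n ≤ R + 1 → ∃ (l : List (Fin 5)) (hl : l.length ≤ R + 1), l.length = n ∧
        n ≤ e (tv R l hl) := by
      intro n
      induction n with
      | zero => intro _; exact ⟨[], Nat.zero_le _, rfl, Nat.zero_le _⟩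
      | succ n ih =>
        intro hn
        obtain ⟨l, hl, hlen, hle⟩ := ih (by omega)
        have hl' : l.length < R + 1 := by omega
        obtain ⟨i, hi⟩ := hcon l hl'
        exact ⟨i :: l, hl', by simp [hlen], by omega⟩
    obtain ⟨l, hl, _, hle⟩ := chain (R + 1) le_rfl
    have := her (tv R l hl)
    omega
  set Z := tv R l hl.le with hZ
  have hMr : e Z ≤ r := her Z
  obtain ⟨ρ, hρr, hρM, hρ⟩ : ∃ ρ, ρ ≤ r ∧ ρ ≤ e Z + 1 ∧
      ∀ i : Fin 5, ∃ p, (GG R).dist (c p) (tv R (i :: l) hl) + 1 ≤ ρ := by
    rcases Nat.lt_or_ge (e Z) r with h | h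
    · refine ⟨e Z + 1, h, le_rfl, fun i => ?_⟩
      obtain ⟨p, hp⟩ := hEatt (tv R (i :: l) hl)
      exact ⟨p, by rw [hp]; have := hgood i; omega⟩
    · refine ⟨r, le_rfl, by omega, fun i => ?_⟩
      have hadj : (GG R).Adj (tv R (i :: l) hl) Z := Or.inl (E.tt l i)
      obtain ⟨p, hp1, hp2⟩ := D.edge _ _ hadj
      rw [mem] at hp1 hp2
      have h1 := hEle p Z
      have h2 := dist_parity (c p) Z
      have h3 := dist_parity (c p) (tv R (i :: l) hl)
      simp only [hZ, tv, col, List.length_cons] at h2 h3
      refine ⟨p, ?_⟩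
      simp only [hZ, tv] at hp1 hp2 h1 h ⊢
      omega
  choose tt htt using hρ
  obtain ⟨p, hp⟩ := balanced D.tree tt
  have hI : 3 ≤ ((AA l (c p).1)ᶜ).card := by
    have h1 := Finset.card_add_card_compl (AA l (c p).1)
    have h2 := AA_card l (c p).1
    simp only [Fintype.card_fin] at h1
    omega
  obtain ⟨i', hi', k', hk', hne', hw'⟩ := hp _ hI
  rw [Finset.mem_compl] at hi' hk'
  -- order the two indices
  obtain ⟨i, k, hik, hi, hk, hw⟩ : ∃ i k : Fin 5, i < k ∧ i ∉ AA l (c p).1 ∧ k ∉ AA l (c p).1 ∧
      ∀ w : D.T.Walk (tt i) (tt k), p ∈ w.support := by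
    rcases lt_or_gt_of_ne hne' with h | h
    · exact ⟨i', k', h, hi', hk', hw'⟩
    · refine ⟨k', i', h, hk', hi', fun w => ?_⟩
      have := hw' w.reverse
      rwa [Walk.support_reverse, List.mem_reverse] at this
  set X := xv R l i k hl hik with hX
  have hdi : (GG R).dist (c (tt i)) X ≤ ρ := by
    have hadj : (GG R).Adj X (tv R (i :: l) hl) := Or.inl (E.xi l i k)
    have h1 := dist_adj_le hG hadj (c (tt i))
    rw [SimpleGraph.dist_comm, SimpleGraph.dist_comm (u := tv R (i :: l) hl)] at h1
    have := htt i
    omega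
  have hdk : (GG R).dist (c (tt k)) X ≤ ρ := by
    have hadj : (GG R).Adj X (tv R (k :: l) hl) := Or.inl (E.xk l i k)
    have h1 := dist_adj_le hG hadj (c (tt k))
    rw [SimpleGraph.dist_comm, SimpleGraph.dist_comm (u := tv R (k :: l) hl)] at h1
    have := htt k
    omega
  -- every vertex `W` within `r` of both centres is within `r` of the centre of `p`
  have conv : ∀ W : VV R, (GG R).dist (c (tt i)) W ≤ r → (GG R).dist (c (tt k)) W ≤ r →
      (GG R).dist (c p) W ≤ r := by
    intro W h1 h2
    obtain ⟨w, hw2⟩ := walk_in {q | W ∈ D.bag q} (D.conn W) (a := tt i) (b := tt k)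
      ((mem _ _).mpr h1) ((mem _ _).mpr h2)
    exact (mem _ _).mp (hw2 p (hw w))
  have hpX : (GG R).dist (c p) X ≤ ρ := by
    rcases Nat.eq_zero_or_pos (r - ρ) with h0 | h0
    · have := conv X (by omega) (by omega)
      omega
    · obtain ⟨n, hn⟩ : ∃ n, r - ρ = n + 1 := ⟨r - ρ - 1, by omega⟩
      have hnR : n < R := by omega
      obtain ⟨s, hs⟩ : ∃ s : Bool, ¬ onhair l i k s (c p).1 := by
        by_contra hcon
        push Not at hcon
        have h1 := hcon true
        have h2 := hcon false
        cases hcp : (c p).1 with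
        | t l' => rw [hcp] at h1; exact h1
        | x l' i' k' => rw [hcp] at h1; exact h1
        | h l' i' k' s' m =>
          rw [hcp] at h1 h2
          have h3 : s' = true := h1.2.2.2
          have h4 : s' = false := h2.2.2.2
          rw [h3] at h4; exact Bool.noConfusion h4
      have hu1 := hair_upper R l hl i k hik s n hnR (c (tt i))
      have hu2 := hair_upper R l hl i k hik s n hnR (c (tt k))
      rw [← hX] at hu1 hu2
      have h3 := conv (hv R l i k s n hl hik hnR) (by omega) (by omega)
      have h4 := hair_lower R l hl i k hik s n hnR (c p) hs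
      rw [← hX] at h4
      omega
  have hfin := core R l hl i k hik (c p) hi hk
  rw [← hX, ← hZ] at hfin
  have := hEle p Z
  omega

/-! ### Small tree-breadth -/

def parV : Vx → Vx
  | .t [] => .t []
  | .t (_ :: l) => .t l
  | .x l _ _ => .t l
  | .h l i k _ 0 => .x l i k
  | .h l i k s (n + 1) => .h l i k s n

lemma good_parV (R : ℕ) (v : Vx) (h : good R v) : good R (parV v) := by
  cases v with
  | t l =>
    cases l with
    | nil => exact h
    | cons i l =>
      simp only [good, List.length_cons, parV] at *
      omega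
  | x l i k => exact h.1.le
  | h l i k s n =>
    cases n with
    | zero => exact ⟨h.1, h.2.1⟩
    | succ n => exact ⟨h.1, h.2.1, by have := h.2.2; omega⟩

def par (R : ℕ) (v : VV R) : VV R := ⟨parV v.1, good_parV R v.1 v.2⟩

def dep : Vx → ℕ
  | .t l => l.length
  | .x l _ _ => l.length + 1
  | .h l _ _ _ n => l.length + 2 + n

lemma par_of_E {u v : Vx} (h : E u v) : parV u = v ∨ parV u = parV v := by
  cases h with
  | tt l i => left; rfl
  | xi l i k => right; rfl
  | xk l i k => right; rfl
  | h0 l i k s => left; rfl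
  | hs l i k s n => left; rfl

theorem breadth_two (R : ℕ) : HasBreadth (GG R) 2 := by
  classical
  have hG := conn_GG R
  have htree : (SimpleGraph.fromRel (fun u v : VV R => par R u = v)).IsTree := by
    refine parentTree (tv R [] (Nat.zero_le _)) (par R) (fun v => dep v.1) ?_ rfl
    rintro ⟨u, hu⟩ hne
    cases u with
    | t l =>
      cases l with
      | nil => exact absurd rfl hne
      | cons i l => simp [par, parV, dep]
    | x l i k => simp [par, parV, dep]
    | h l i k s n =>
      cases n with
      | zero => simp [par, parV, dep]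
      | succ n => simp [par, parV, dep]
  refine ⟨{ ι := VV R, fin := finite_VV R, T := _, tree := htree,
            bag := fun v => {u | u = v ∨ par R u = v}, vert := ?_, edge := ?_, conn := ?_ }, ?_⟩
  · intro v; exact ⟨v, Or.inl rfl⟩
  · intro u v h
    have key : ∀ u v : VV R, E u.1 v.1 → ∃ p, u ∈ ({u | u = p ∨ par R u = p} : Set (VV R)) ∧
        v ∈ ({u | u = p ∨ par R u = p} : Set (VV R)) := by
      intro u v h
      rcases par_of_E h with h1 | h1
      · exact ⟨v, Or.inr (Subtype.ext h1), Or.inl rfl⟩
      · exact ⟨par R u, Or.inr rfl, Or.inr (Subtype.ext h1.symm)⟩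
    rcases h with h | h
    · exact key u v h
    · obtain ⟨p, h1, h2⟩ := key v u h
      exact ⟨p, h2, h1⟩
  · intro v
    -- the nodes containing v are v and its parent
    have hset : ∀ q : VV R, v ∈ ({u | u = q ∨ par R u = q} : Set (VV R)) → q = v ∨ q = par R v := by
      intro q hq
      rcases hq with hq | hq
      · exact Or.inl hq.symm
      · exact Or.inr hq.symm
    have hstep : ∀ a b : {p : VV R | v ∈ ({u | u = p ∨ par R u = p} : Set (VV R))}, a.1 = v → b.1 = par R v →
        (((SimpleGraph.fromRel (fun u v : VV R => par R u = v)).induce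
          {p : VV R | v ∈ ({u | u = p ∨ par R u = p} : Set (VV R))})).Reachable a b := by
      intro a b ha hb
      by_cases hab : a = b
      · rw [hab]
      · apply SimpleGraph.Adj.reachable
        rw [SimpleGraph.comap_adj, SimpleGraph.fromRel_adj]
        refine ⟨fun h => hab (Subtype.ext h), Or.inl ?_⟩
        change par R a.1 = b.1
        rw [ha, hb]
    intro a b
    rcases hset a.1 a.2 with ha | ha <;> rcases hset b.1 b.2 with hb | hb
    · have : a = b := Subtype.ext (ha.trans hb.symm)
      rw [this]
    · exact hstep a b ha hb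
    · exact (hstep b a hb ha).symm
    · have : a = b := Subtype.ext (ha.trans hb.symm)
      rw [this]
  · intro v
    refine ⟨v, fun u hu => ?_⟩
    rw [mem_disk hG]
    rcases hu with hu | hu
    · rw [hu, SimpleGraph.dist_self]; omega
    · -- u is a child of v
      obtain ⟨u, hu'⟩ := u
      subst hu
      rw [SimpleGraph.dist_comm]
      cases u with
      | t l =>
        cases l with
        | nil =>
          have : (⟨.t [], hu'⟩ : VV R) = par R ⟨.t [], hu'⟩ := rfl
          rw [← this, SimpleGraph.dist_self]; omega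
        | cons i l =>
          have hadj : (GG R).Adj ⟨.t (i :: l), hu'⟩ (par R ⟨.t (i :: l), hu'⟩) := Or.inl (E.tt l i)
          rw [SimpleGraph.dist_eq_one_iff_adj.mpr hadj]; omega
      | x l i k =>
        have hadj : (GG R).Adj ⟨.x l i k, hu'⟩ (tv R (i :: l) hu'.1) := Or.inl (E.xi l i k)
        have hadj2 : (GG R).Adj (tv R (i :: l) hu'.1) (par R ⟨.x l i k, hu'⟩) := Or.inl (E.tt l i)
        have h1 := dist_adj_le hG hadj (par R ⟨.x l i k, hu'⟩)
        rw [SimpleGraph.dist_eq_one_iff_adj.mpr hadj2] at h1
        exact h1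
      | h l i k s n =>
        cases n with
        | zero =>
          have hadj : (GG R).Adj ⟨.h l i k s 0, hu'⟩ (par R ⟨.h l i k s 0, hu'⟩) :=
            Or.inl (E.h0 l i k s)
          rw [SimpleGraph.dist_eq_one_iff_adj.mpr hadj]; omega
        | succ n =>
          have hadj : (GG R).Adj ⟨.h l i k s (n + 1), hu'⟩ (par R ⟨.h l i k s (n + 1), hu'⟩) :=
            Or.inl (E.hs l i k s n)
          rw [SimpleGraph.dist_eq_one_iff_adj.mpr hadj]; omega

/-- Every finite connected graph has a strong decomposition (one bag). -/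
lemma exists_strong {V : Type} [Finite V] (G : SimpleGraph V) (hG : G.Connected) :
    ∃ r, HasStrong G r := by
  classical
  obtain ⟨v0⟩ := hG.nonempty
  have hfin : (Set.range (fun u => G.dist v0 u)).Finite := Set.finite_range _
  obtain ⟨r, hr⟩ := hfin.bddAbove
  have hall : ∀ u, u ∈ disk G r v0 := fun u => (mem_disk hG r v0 u).mpr (hr ⟨u, rfl⟩)
  have hT : (⊥ : SimpleGraph Unit).IsTree := by
    refine IsTree.mk ((SimpleGraph.connected_iff_exists_forall_reachable _).mpr
      ⟨(), fun w => by cases w; exact Reachable.refl _⟩) ?_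
    exact SimpleGraph.isAcyclic_bot
  let D : TreeDec G :=
    { ι := Unit
      fin := inferInstance
      T := ⊥
      tree := hT
      bag := fun _ => disk G r v0
      vert := fun v => ⟨(), hall v⟩
      edge := fun u v _ => ⟨(), hall u, hall v⟩
      conn := fun v a b => by
        have : a = b := Subtype.ext rfl
        rw [this] }
  exact ⟨r, D, fun _ => ⟨v0, hall v0, rfl⟩⟩

theorem main (R : ℕ) : (GG R).Connected ∧ tb (GG R) ≤ 2 ∧ HasStrong (GG R) (stb (GG R)) ∧
    R < stb (GG R) := by
  have hfin := finite_VV R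
  have h1 : HasStrong (GG R) (stb (GG R)) :=
    Nat.sInf_mem (exists_strong (GG R) (conn_GG R))
  refine ⟨conn_GG R, Nat.sInf_le (breadth_two R), h1, ?_⟩
  by_contra hcon
  push Not at hcon
  exact no_strong R _ hcon h1


/-- Strong tree-breadth is not bounded by any multiple of tree-breadth: for every `R` there is a finite
connected graph with tree-breadth at most `2` and strong tree-breadth larger than `R`; hence no constant
`c` satisfies `stb G ≤ c * tb G` for all (finite, connected) graphs `G`. -/
theorem result :
    (∀ R : ℕ, ∃ (V : Type) (_ : Finite V) (G : SimpleGraph V), G.Connected ∧ tb G ≤ 2 ∧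
      HasBreadth G (tb G) ∧ HasStrong G (stb G) ∧ R < stb G) ∧
    (∀ c : ℝ, ∃ (V : Type) (_ : Finite V) (G : SimpleGraph V), G.Connected ∧
      c * (tb G : ℝ) < (stb G : ℝ)) := by
  have h1 : ∀ R : ℕ, ∃ (V : Type) (_ : Finite V) (G : SimpleGraph V), G.Connected ∧ tb G ≤ 2 ∧
      HasBreadth G (tb G) ∧ HasStrong G (stb G) ∧ R < stb G := by
    intro R
    obtain ⟨a, b, c, d⟩ := main R
    have hb : HasBreadth (GG R) (tb (GG R)) :=
      Nat.sInf_mem (s := {r | HasBreadth (GG R) r}) ⟨2, breadth_two R⟩
    exact ⟨VV R, finite_VV R, GG R, a, b, hb, c, d⟩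
  refine ⟨h1, fun c => ?_⟩
  obtain ⟨n, hn⟩ := exists_nat_gt (|c| * 2)
  obtain ⟨V, hV, G, hG, h2, _, _, h3⟩ := h1 n
  refine ⟨V, hV, G, hG, ?_⟩
  have h4 : (tb G : ℝ) ≤ 2 := by exact_mod_cast h2
  have h5 : (0 : ℝ) ≤ (tb G : ℝ) := Nat.cast_nonneg _
  have h6 : (n : ℝ) < (stb G : ℝ) := by exact_mod_cast h3
  have h7 : c * (tb G : ℝ) ≤ |c| * 2 :=
    mul_le_mul (le_abs_self c) h4 h5 (abs_nonneg c)
  linarith

end Pool.Agent.Results.MP_3ffbec_co.StrongUnbounded
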